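import Pool.Graph.R_pool_sql_team_seeded_64922ed1.Results.MP_97831a_nt.AllOddN

/-!
# Partial sums of the q-series with factor `[8k-1]`
-/

set_option autoImplicit false

namespace Pool.Agent.KS6_65.QTR

open Finset Polynomial Pool.Agent.X14 QL QBlock
open Pool.Agent.Results.MP_97831a_nt.AllOddN (S br Zero S_eq inv_mem' exists_M0)

noncomputable section

/-- the terms after the index `t` of a block vanish to order four -/
theorem term_QO {n M0 t : ℕ} (h0 : M0 * n + 1 = 4 * t) (hM0 : M0 < 4) (hn1 : 1 < n) (J : ℕ) {l : ℕ}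
    (hl : l < n) (htl : t < l) : QO (cyclotomic n ℚ) 4 (T5 (n * J + l)) := by
  have hal : al (cyclotomic n ℚ) ≠ 0 := al_ne (cyclotomic_ne_zero n ℚ)
  obtain ⟨y, hy, hy'⟩ := (T5_mem h0 hM0 hn1 J hl).2 htl
  refine ⟨y, hy, ?_⟩
  apply mul_left_cancel₀ hal
  rw [hy']
  ring

theorem sum_split (n J l : ℕ) (hl : l ≤ n) (f : ℕ → RatFunc ℚ) :
    ∑ k ∈ range (n * J + l), f k = ∑ k ∈ range (n * J), f k +
      (∑ i ∈ range n, f (n * J + i) - ∑ i ∈ Ico l n, f (n * J + i)) := by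
  rw [Finset.sum_range_add, ← sum_range_add_sum_Ico (fun i => f (n * J + i)) hl]
  ring

theorem partial_QO {n M0 t : ℕ} (h0 : M0 * n + 1 = 4 * t) (hM0 : M0 < 4) (hn1 : 1 < n) (J : ℕ)
    {l : ℕ} (hl : l ≤ n) (htl : t < l) :
    QO (cyclotomic n ℚ) 1 (∑ k ∈ range (n * J + l), T5 k) := by
  rw [sum_split n J l hl, sum_range_blocks]
  refine (QO.sum fun m _ => blocks5 h0 hM0 hn1 m).add
    ((blocks5 h0 hM0 hn1 J).sub (QO.sum fun i hi => ?_))
  rw [mem_Ico] at hi
  exact (term_QO h0 hM0 hn1 J hi.2 (by omega)).le (by norm_num)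

theorem first_QO {n t : ℕ} (h0 : 3 * n + 1 = 4 * t) (hn1 : 1 < n) {l : ℕ} (hl : l ≤ n)
    (htl : t < l) : QO (cyclotomic n ℚ) 3 (∑ k ∈ range l, T5 k) := by
  have h := sum_split n 0 l hl T5
  rw [mul_zero, zero_add, range_zero, sum_empty, zero_add] at h
  rw [h]
  simp only [zero_add]
  refine (first5 h0 hn1).sub (QO.sum fun i hi => ?_)
  rw [mem_Ico] at hi
  have := term_QO h0 (by norm_num) hn1 0 hi.2 (by omega : t < i)
  rw [mul_zero, zero_add] at this
  exact this.le (by norm_num)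

/-- the partial sums of length `n J + l`, `t < l ≤ n`, modulo `Φ_n` -/
theorem S_QO {n M0 t : ℕ} (h0 : M0 * n + 1 = 4 * t) (hM0 : M0 < 4) (hn1 : 1 < n) (J : ℕ)
    {l : ℕ} (hl : l ≤ n) (htl : t < l) : QO (cyclotomic n ℚ) 1 (S (n * J + l)) := by
  rw [S_eq]
  exact QO.mul_left (inv_mem' hn1) (partial_QO h0 hM0 hn1 J hl htl)

theorem S_mul_QO {n M0 t : ℕ} (h0 : M0 * n + 1 = 4 * t) (hM0 : M0 < 4) (hn1 : 1 < n) (J : ℕ) :
    QO (cyclotomic n ℚ) 1 (S (n * J)) := by
  rw [S_eq, sum_range_blocks]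
  exact QO.mul_left (inv_mem' hn1) (QO.sum fun m _ => blocks5 h0 hM0 hn1 m)

theorem S_first_QO {n t : ℕ} (h0 : 3 * n + 1 = 4 * t) (hn1 : 1 < n) {l : ℕ} (hl : l ≤ n)
    (htl : t < l) : QO (cyclotomic n ℚ) 3 (S l) := by
  rw [S_eq]
  exact QO.mul_left (inv_mem' hn1) (first_QO h0 hn1 hl htl)

/-- the last index of `n` and that of a divisor -/
theorem index_div {n d M M' t t' : ℕ} (hd : d ∣ n) (hn : 0 < n) (h : M * n + 1 = 4 * t) (hM : M < 4)
    (h' : M' * d + 1 = 4 * t') (hM' : M' < 4) (hd1 : 1 < d) : ∃ a, t = d * a + t' := by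
  obtain ⟨c, rfl⟩ := hd
  have hodd : d % 2 = 1 := odd_of5 h'
  have hcop : Nat.Coprime d 4 := by
    have : Nat.Coprime d 2 :=
      Nat.Coprime.symm ((Nat.Prime.coprime_iff_not_dvd Nat.prime_two).2 (by omega))
    exact Nat.Coprime.pow_right 2 this
  have hle : t' ≤ t := by
    have hc0 : 0 < c := Nat.pos_of_ne_zero (by rintro rfl; simp at hn)
    have hMo : M % 2 = 1 := M0_odd5 h
    have hoddc : (d * c) % 2 = 1 := odd_of5 h
    have hc2 : c % 2 = 1 := Nat.odd_iff.1 (Nat.odd_mul.1 (Nat.odd_iff.2 hoddc)).2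
    have hcM : M' * d ≤ M * (d * c) := by
      rcases (by omega : c = 1 ∨ 3 ≤ c) with rfl | hc
      · rw [mul_one] at h ⊢
        -- both `M` and `M'` are determined by `d` modulo four
        have h1 : (M * d) % 4 = 3 := by omega
        have h2 : (M' * d) % 4 = 3 := by omega
        have hMM : M = M' := by
          rcases (by omega : d % 4 = 1 ∨ d % 4 = 3) with h3 | h3
          · rw [Nat.mul_mod, h3] at h1 h2
            omega
          · rw [Nat.mul_mod, h3] at h1 h2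
            omega
        rw [hMM]
      · calc M' * d ≤ 3 * d := Nat.mul_le_mul_right _ (by omega)
          _ ≤ M * (d * c) := by
            have e1 : 1 ≤ M := by omega
            calc 3 * d ≤ d * c := by rw [mul_comm]; exact Nat.mul_le_mul_left _ hc
              _ = 1 * (d * c) := (one_mul _).symm
              _ ≤ M * (d * c) := Nat.mul_le_mul_right _ e1
    omega
  have hdvd : d ∣ 4 * (t - t') := by
    have h1 : d ∣ M * (d * c) := Dvd.dvd.mul_left (dvd_mul_right d c) M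
    have h2 : d ∣ M' * d := dvd_mul_left d M'
    have h3 : 4 * (t - t') = M * (d * c) - M' * d := by omega
    rw [h3]
    exact Nat.dvd_sub h1 h2
  obtain ⟨a, ha⟩ := hcop.dvd_of_dvd_mul_left hdvd
  exact ⟨a, by omega⟩

theorem zero_of {n N : ℕ} (hn0 : 0 < n)
    (h : ∀ d, d ∣ n → 1 < d → QO (cyclotomic d ℚ) 1 (S N)) : Zero (br n) (S N) := by
  have hbr : br n = ∏ i ∈ n.divisors.erase 1, cyclotomic i ℚ :=
    (prod_cyclotomic_eq_geom_sum hn0 ℚ).symm
  have hdv : ∀ d ∈ n.divisors.erase 1, IsCoprime (S N).denom (cyclotomic d ℚ) ∧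
      cyclotomic d ℚ ∣ (S N).num := by
    intro d hd
    rw [mem_erase, Nat.mem_divisors] at hd
    have h1 : 1 < d := by
      have : 0 < d := Nat.pos_of_dvd_of_pos hd.2.1 hn0
      omega
    have := (h d hd.2.1 h1).num_denom
    rw [pow_one] at this
    exact ⟨this.2, this.1⟩
  refine ⟨?_, ?_⟩
  · rw [hbr]
    exact IsCoprime.prod_right (fun d hd => (hdv d hd).1)
  · rw [hbr]
    exact Finset.prod_dvd_of_coprime (fun i _ j _ hij => cyclotomic.isCoprime_rat hij)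
      (fun d hd => (hdv d hd).2)

theorem zero_of' {n N : ℕ} (hn1 : 1 < n)
    (h : ∀ d, d ∣ n → 1 < d → QO (cyclotomic d ℚ) 1 (S N)) (h3 : QO (cyclotomic n ℚ) 3 (S N)) :
    Zero (br n * cyclotomic n ℚ ^ 2) (S N) := by
  have hn0 : 0 < n := by omega
  have hbr : br n = ∏ i ∈ n.divisors.erase 1, cyclotomic i ℚ :=
    (prod_cyclotomic_eq_geom_sum hn0 ℚ).symm
  have hdv : ∀ d ∈ n.divisors.erase 1, IsCoprime (S N).denom (cyclotomic d ℚ) ∧
      cyclotomic d ℚ ∣ (S N).num := by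
    intro d hd
    rw [mem_erase, Nat.mem_divisors] at hd
    have h1 : 1 < d := by
      have : 0 < d := Nat.pos_of_dvd_of_pos hd.2.1 hn0
      omega
    have := (h d hd.2.1 h1).num_denom
    rw [pow_one] at this
    exact ⟨this.2, this.1⟩
  have hmem : n ∈ n.divisors.erase 1 := by
    rw [mem_erase, Nat.mem_divisors]
    exact ⟨by omega, dvd_rfl, hn0.ne'⟩
  refine ⟨(zero_of hn0 h).1.mul_right ((hdv n hmem).1.pow_right), ?_⟩
  rw [hbr, ← mul_prod_erase _ _ hmem]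
  have e1 : cyclotomic n ℚ * (∏ x ∈ (n.divisors.erase 1).erase n, cyclotomic x ℚ) *
      cyclotomic n ℚ ^ 2 =
      cyclotomic n ℚ ^ 3 * ∏ x ∈ (n.divisors.erase 1).erase n, cyclotomic x ℚ := by ring
  rw [e1]
  refine IsCoprime.mul_dvd ?_ h3.num_denom.1 ?_
  · apply IsCoprime.pow_left
    apply IsCoprime.prod_right
    intro i hi
    rw [mem_erase] at hi
    exact cyclotomic.isCoprime_rat (Ne.symm hi.1)
  · exact Finset.prod_dvd_of_coprime (fun i _ j _ hij => cyclotomic.isCoprime_rat hij)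
      (fun d hd' => (hdv d (mem_of_mem_erase hd')).2)

/-- all divisors at once, for the sums of length `n J` -/
theorem all_mul {n : ℕ} (hodd : n % 2 = 1) (J : ℕ) :
    ∀ d, d ∣ n → 1 < d → QO (cyclotomic d ℚ) 1 (S (n * J)) := by
  intro d hd hd1
  have hdo : d % 2 = 1 := by
    obtain ⟨c, rfl⟩ := hd
    exact Nat.odd_iff.1 (Nat.odd_mul.1 (Nat.odd_iff.2 hodd)).1
  obtain ⟨M', t', h', hM'⟩ := exists_M0 hdo
  obtain ⟨c, rfl⟩ := hd
  rw [mul_assoc]
  exact S_mul_QO h' hM' hd1 (c * J)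

/-- all divisors at once, for the sums of length `n J + t + 1` -/
theorem all_trunc {n M t : ℕ} (hn1 : 1 < n) (h : M * n + 1 = 4 * t) (hM : M < 4) (J : ℕ) :
    ∀ d, d ∣ n → 1 < d → QO (cyclotomic d ℚ) 1 (S (n * J + (t + 1))) := by
  intro d hd hd1
  have hodd : n % 2 = 1 := odd_of5 h
  have hdo : d % 2 = 1 := by
    obtain ⟨c, rfl⟩ := hd
    exact Nat.odd_iff.1 (Nat.odd_mul.1 (Nat.odd_iff.2 hodd)).1
  obtain ⟨M', t', h', hM'⟩ := exists_M0 hdo
  obtain ⟨a, ha⟩ := index_div hd (by omega) h hM h' hM' hd1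
  obtain ⟨c, rfl⟩ := hd
  have e : d * c * J + (t + 1) = d * (c * J + a) + (t' + 1) := by
    rw [ha]
    ring
  rw [e]
  exact S_QO h' hM' hd1 _ (t_lt5 h' hM' hd1) (by omega)

end

end Pool.Agent.KS6_65.QTR
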